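import Pool.Agent.L0h77.MO.Stm

/-! MP_65b575_al, project MO, module CEN: proper normal subgroups of an infinite finitely generated
noncyclic group with cyclic proper subgroups are central -/

set_option autoImplicit false
set_option maxHeartbeats 400000

namespace Pool.Agent.L0h39.MO

open Subgroup Pool.Agent.L0h77.MO
open scoped commutatorElement

/-- A generator of a cyclic subgroup. -/
theorem cyc_gen {G : Type} [Group G] (N : Subgroup G) (hc : IsCyclic N) :
    ∃ a : G, a ∈ N ∧ ∀ x ∈ N, ∃ k : ℤ, x = a ^ k := by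
  obtain ⟨⟨a, ha⟩, h⟩ := hc.exists_generator
  refine ⟨a, ha, fun x hx => ?_⟩
  obtain ⟨k, hk⟩ := Subgroup.mem_zpowers_iff.1 (h ⟨x, hx⟩)
  exact ⟨k, by simpa using (congrArg Subtype.val hk).symm⟩

/-- The commutator subgroup centralizes every cyclic normal subgroup. -/
theorem comm_le {G : Type} [Group G] (N : Subgroup G) (hN : N.Normal) (hc : IsCyclic N) :
    commutator G ≤ centralizer (N : Set G) := by
  obtain ⟨a, ha, h1⟩ := cyc_gen N hc
  have h2 : ∀ g : G, ∃ k : ℤ, g * a * g⁻¹ = a ^ k := fun g => h1 _ (hN.conj_mem a ha g)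
  have key : ∀ x y : G, x * y * a * (x * y)⁻¹ = y * x * a * (y * x)⁻¹ := by
    intro x y
    obtain ⟨k, hk⟩ := h2 x
    obtain ⟨l, hl⟩ := h2 y
    have e1 : x * y * a * (x * y)⁻¹ = a ^ (k * l) := by
      rw [show x * y * a * (x * y)⁻¹ = x * (y * a * y⁻¹) * x⁻¹ by group, hl, ← conj_zpow, hk,
        ← zpow_mul]
    have e2 : y * x * a * (y * x)⁻¹ = a ^ (l * k) := by
      rw [show y * x * a * (y * x)⁻¹ = y * (x * a * x⁻¹) * y⁻¹ by group, hk, ← conj_zpow, hl,
        ← zpow_mul]
    rw [e1, e2, mul_comm]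
  rw [_root_.commutator_def, Subgroup.commutator_le]
  intro g _ h _
  rw [mem_centralizer_iff]
  have e := key g⁻¹ h⁻¹
  have hcomm : Commute a ⁅g, h⁆ := by
    show a * ⁅g, h⁆ = ⁅g, h⁆ * a
    calc a * ⁅g, h⁆ = (g * h) * (h⁻¹ * g⁻¹ * a * (h⁻¹ * g⁻¹)⁻¹) * (h * g)⁻¹ := by
          rw [commutatorElement_def]; group
      _ = (g * h) * (g⁻¹ * h⁻¹ * a * (g⁻¹ * h⁻¹)⁻¹) * (h * g)⁻¹ := by rw [e]
      _ = ⁅g, h⁆ * a := by rw [commutatorElement_def]; group
  intro x hx
  obtain ⟨k, rfl⟩ := h1 x hx
  exact (hcomm.zpow_left k).eq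

theorem CEN (hZ : S_CYZ) : S_CEN := by
  intro G _ _ _ hT N hN hNt
  obtain ⟨hnc, hprop⟩ := hT
  have hA : Finite (Abelianization G) := by
    by_contra h
    rw [not_finite_iff_infinite] at h
    exact hnc (hZ G hprop h)
  have hA' : Finite (G ⧸ commutator G) := hA
  by_contra hcon
  have hC : centralizer (N : Set G) ≠ ⊤ := by
    intro h
    apply hcon
    intro x hx
    rw [mem_center_iff]
    intro g
    have h3 : g ∈ centralizer (N : Set G) := by rw [h]; exact mem_top g
    exact (mem_centralizer_iff.1 h3 x hx).symm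
  have hAC : commutator G ≤ centralizer (N : Set G) := comm_le N hN (hprop N hNt)
  have hAt : commutator G ≠ ⊤ := by
    intro h
    rw [h] at hAC
    exact hC (top_le_iff.1 hAC)
  obtain ⟨a, ha, h1⟩ := cyc_gen (commutator G) (hprop _ hAt)
  have hord : ¬ IsOfFinOrder a := by
    intro h
    have h2 : commutator G ≤ zpowers a := by
      intro x hx
      obtain ⟨k, rfl⟩ := h1 x hx
      exact mem_zpowers_iff.2 ⟨k, rfl⟩
    have h3 : (zpowers a : Set G).Finite := h.finite_zpowers
    have h4 : Finite (commutator G) := (h3.subset h2).to_subtype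
    have h5 : Finite G :=
      Finite.of_equiv _ (Subgroup.groupEquivQuotientProdSubgroup (s := commutator G)).symm
    exact not_finite G
  have hinj : ∀ m n : ℤ, a ^ m = a ^ n → m = n := fun m n h =>
    injective_zpow_iff_not_isOfFinOrder.2 hord h
  have hconj : ∀ g : G, g * a * g⁻¹ = a ∨ g * a * g⁻¹ = a⁻¹ := by
    intro g
    obtain ⟨k, hk⟩ := h1 _ ((inferInstance : (commutator G).Normal).conj_mem a ha g)
    obtain ⟨l, hl⟩ := h1 _ ((inferInstance : (commutator G).Normal).conj_mem a ha g⁻¹)
    have e : a ^ (k * l) = a ^ (1 : ℤ) := by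
      rw [zpow_mul, ← hk, conj_zpow, zpow_one]
      rw [← hl]
      group
    have e2 := hinj _ _ e
    rcases Int.eq_one_or_neg_one_of_mul_eq_one e2 with rfl | rfl
    · left
      rw [hk, zpow_one]
    · right
      rw [hk, zpow_neg_one]
  by_cases hall : ∀ g : G, g * a * g⁻¹ = a
  · -- the commutator subgroup is central
    have hcen : ∀ x ∈ commutator G, ∀ g : G, g * x = x * g := by
      intro x hx g
      obtain ⟨k, rfl⟩ := h1 x hx
      have h2 : Commute g a := by
        show g * a = a * g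
        conv_rhs => rw [← hall g]
        group
      exact (h2.zpow_right k).eq
    have hfi : (commutator G).FiniteIndex := Subgroup.finiteIndex_of_finite_quotient
    have hn : (commutator G).index ≠ 0 := hfi.index_ne_zero
    have hle : commutator G ≤ ⊥ := by
      conv_lhs => rw [_root_.commutator_def]
      rw [Subgroup.commutator_le]
      intro g _ h _
      rw [Subgroup.mem_bot]
      have hz : ⁅g, h⁆ ∈ commutator G := by
        rw [_root_.commutator_def]
        exact commutator_mem_commutator (mem_top g) (mem_top h)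
      obtain ⟨k, hk⟩ := h1 _ hz
      have h3 : h * g * h⁻¹ = ⁅g, h⁆⁻¹ * g := by
        rw [commutatorElement_def]; group
      have h4 : h * g ^ (commutator G).index * h⁻¹ = g ^ (commutator G).index := by
        have := hcen _ (Subgroup.pow_index_mem (commutator G) g) h
        rw [this]
        group
      have h5 : (⁅g, h⁆⁻¹ * g) ^ (commutator G).index = g ^ (commutator G).index := by
        rw [← h3, conj_pow, h4]
      have h6 : Commute ⁅g, h⁆⁻¹ g := by
        have : Commute ⁅g, h⁆ g := (hcen _ hz g).symm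
        exact this.inv_left
      rw [h6.mul_pow] at h5
      have h7 : (⁅g, h⁆⁻¹) ^ (commutator G).index = 1 := by
        simpa using h5
      rw [hk, inv_pow, inv_eq_one, ← zpow_natCast, ← zpow_mul] at h7
      have h8 := hinj _ 0 (by rw [h7, zpow_zero])
      have h9 : k = 0 := by
        rcases mul_eq_zero.1 h8 with h | h
        · exact h
        · exact absurd (by exact_mod_cast h) hn
      rw [hk, h9, zpow_zero]
    have h2 : a = 1 := by
      have := hle ha
      rwa [Subgroup.mem_bot] at this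
    exact hord (by rw [h2]; exact IsOfFinOrder.one)
  · push Not at hall
    obtain ⟨g, hg⟩ := hall
    have hg' : g * a * g⁻¹ = a⁻¹ := (hconj g).resolve_left hg
    have hnorm : (zpowers (a ^ 2)).Normal := by
      constructor
      intro x hx y
      obtain ⟨j, rfl⟩ := mem_zpowers_iff.1 hx
      rcases hconj y with h | h
      · refine mem_zpowers_iff.2 ⟨j, ?_⟩
        rw [← conj_zpow, ← conj_pow, h]
      · refine mem_zpowers_iff.2 ⟨-j, ?_⟩
        rw [← conj_zpow, ← conj_pow, h, inv_pow, inv_zpow, zpow_neg]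
    have hH : zpowers g ⊔ zpowers (a ^ 2) = ⊤ := by
      by_contra hH
      obtain ⟨b, -, hb⟩ := cyc_gen _ (hprop _ hH)
      obtain ⟨u, hu⟩ := hb g (mem_sup_left (mem_zpowers g))
      obtain ⟨v, hv⟩ := hb (a ^ 2) (mem_sup_right (mem_zpowers (a ^ 2)))
      have h2 : g * a ^ 2 * g⁻¹ = a ^ 2 := by
        rw [hv, hu, ← zpow_add, ← zpow_neg, ← zpow_add]
        congr 1
        ring
      rw [← conj_pow, hg'] at h2
      have h3 := hinj (-2) 2 (by
        rw [zpow_neg, ← inv_zpow]
        exact_mod_cast h2)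
      omega
    have ha2 : a ∈ zpowers g ⊔ zpowers (a ^ 2) := by rw [hH]; exact mem_top a
    rw [mem_sup_of_normal_right] at ha2
    obtain ⟨x, hx, y, hy, hxy⟩ := ha2
    obtain ⟨i, rfl⟩ := mem_zpowers_iff.1 hx
    obtain ⟨j, rfl⟩ := mem_zpowers_iff.1 hy
    have h2 : g ^ i = a ^ (1 - 2 * j) := by
      rw [eq_comm, zpow_sub, zpow_one, zpow_mul]
      rw [← div_eq_mul_inv, div_eq_iff_eq_mul]
      exact_mod_cast hxy.symm
    have h3 : g * a ^ (1 - 2 * j) * g⁻¹ = a ^ (1 - 2 * j) := by
      rw [← h2]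
      group
    rw [← conj_zpow, hg', inv_zpow, ← zpow_neg] at h3
    have h4 := hinj _ _ h3
    omega

end Pool.Agent.L0h39.MO
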